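import Pool.Agent.H364.PR.Fin

/-!
# Finite quotients of mapping class groups and the coverings with group of exponent two

Let `G` be the fundamental group of a closed orientable surface `S` of genus `g`, and let `G²` be
the subgroup generated by the squares; it is the intersection of the kernels of the `2^{2g}`
homomorphisms `χ : G → {1, -1}`, and `G / G² = H_1(S; ℤ/2)`. Mathlib's `Γ.lowerCentralSeries c` is
`γ_{c+1} Γ`, where `γ_1 Γ = Γ` and `γ_{i+1} Γ = [γ_i Γ, Γ]`.

Theorem. Let `g ≥ 4` and `c ≥ 0`. Every subgroup of finite index of `Mod_S = Out (G)` which contains
the kernel of the action on `G / γ_{c+1} (G²)` contains the kernel of `Out (G) → Out (G / K)`, for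
some characteristic subgroup `K` of finite index of `G`.

So the answer to the question is positive for all finite quotients of `Mod_S`, `g ≥ 4`, which factor
through the image of `Mod_S` in `Out (G / γ_c (G²))` for some `c`. For `c = 2` these are the
quotients given by the action on the homology of the covering of `S` with the deck group
`H_1(S; ℤ/2)`, the Prym representations of order two.

Proof. By the results on virtually nilpotent quotients in `Pool.Agent.R569.CS` (the file
`VirtuallyNilpotentQuotients`) it suffices to show that a normal subgroup `V` of finite index of
`Aut (G)` which contains the automorphisms acting trivially on `G / Γ` and on `Γ / [Γ, Γ]`, where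
`Γ = G²`, is a congruence subgroup. By transfer, `Hom (Γ, ℚ)` is the direct sum of the spaces of the
restrictions to `Γ` of the derivations `d : G → ℚ`, `d (xy) = d (x) + χ (x) d (y)`, one for each
of the characters `χ`. By handle moves, `χ` is conjugate under `Aut (G)` to the trivial character or
to the character `χ_1` with `χ_1 (a_1) = -1` which is trivial on the other generators
`b_1, a_2, b_2, …`. On the part of `χ = 1` or `χ = χ_1` the handles in the kernel of `χ` give a
symplectic basis of a lattice of rank `2r`, `r = g` or `r = g - 1 ≥ 3`; the stabiliser of `χ` acts
by matrices in `GL_{2r}(ℤ)` preserving the form up to sign (by a homomorphism to a Heisenberg group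
twisted by `χ`), and its image contains `Sp_{2r}(ℤ)` (by twists and handle swaps).

Let `N(X)` be the group of the automorphisms acting trivially on `G / Γ` and on the parts of the
characters in `X`. For each `χ' ≠ χ` there is a basis vector `v` such that `N({χ'})` contains an
element acting on the part of `χ` by the transvection with `v` and the multiplier `±2` or `-4`: if
`χ' (c) = -1` and `χ (c) = 1` for a suitable simple closed curve `c` then the square of the twist
along `c` is trivial on the part of `χ'`, and the only other case is that of `χ = χ_1`, `χ' = 1`; in
this case a twist along a separating curve, which is trivial on the homology of `S`, acts on the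
part of `χ_1` by the fourth power of a transvection. Conjugating with squares of twists one gets the
`256`-th powers of all transvections, and taking commutators of such elements of `N(X)` and
`N({χ'})` one gets, by induction, for `X` the set of all `χ' ≠ χ`, the `n`-th powers of all
transvections of the part of `χ`, for some `n > 0`. If `M` is the index of `V`, then `V` contains
the `M`-th powers, and by the congruence subgroup property of `Sp_{2r}(ℤ)` (Bass, Milnor, Serre) the
elements of `V` which act trivially on all other parts realise on the part of `χ` all symplectic
matrices congruent to `1` modulo some `m`. So an automorphism which acts trivially on a suitable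
finite quotient of `G` differs from an element of `V` by an automorphism acting trivially on all
parts, thus on `Γ / [Γ, Γ]`.
-/

set_option autoImplicit false

namespace Pool.Agent.Results.MP_59b15d_al.OrderTwoPrym

open Pool.Agent.TH933.SPC

/-- `G` is the fundamental group of a closed orientable surface of genus `g`. -/
def IsSurfaceGroup (g : ℕ) (G : Type) [Group G] : Prop :=
  Nonempty (G ≃* PresentedGroup
    ({(List.ofFn (fun i : Fin g =>
        FreeGroup.of (Sum.inl i : Fin g ⊕ Fin g) *
        FreeGroup.of (Sum.inr i : Fin g ⊕ Fin g) *
        (FreeGroup.of (Sum.inl i : Fin g ⊕ Fin g))⁻¹ *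
        (FreeGroup.of (Sum.inr i : Fin g ⊕ Fin g))⁻¹)).prod} :
      Set (FreeGroup (Fin g ⊕ Fin g))))

/-- The subgroup generated by the squares. -/
def Squares (G : Type) [Group G] : Subgroup G :=
  Subgroup.closure (Set.range fun x : G => x ^ 2)

/-- Let `G` be the fundamental group of a closed orientable surface of genus `g ≥ 4`, and `c` a
natural number. Every subgroup `H` of finite index of `Aut (G)` which contains the inner
automorphisms and all automorphisms which are inner modulo `γ_{c+1} (G²)` contains all automorphisms
which are inner modulo `K`, for some characteristic subgroup `K` of finite index of `G`. -/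
theorem result (g : ℕ) (_ : 4 ≤ g) (G : Type) [Group G] (_ : IsSurfaceGroup g G) (c : ℕ)
    (H : Subgroup (MulAut G)) (_ : H.FiniteIndex) (_ : ∀ x, MulAut.conj x ∈ H)
    (_ : ∀ φ : MulAut G,
      (∃ y, ∀ x, φ x * (y * x * y⁻¹)⁻¹ ∈ (Squares G).lowerCentralSeries c) → φ ∈ H) :
    ∃ K : Subgroup G, K.Characteristic ∧ K.FiniteIndex ∧
      ∀ φ : MulAut G, (∃ y, ∀ x, φ x * (y * x * y⁻¹)⁻¹ ∈ K) → φ ∈ H := by
  rename_i hg _ hG hH hinn h
  obtain ⟨e⟩ := hG
  refine Pool.Agent.H364.PR.outer hg e c H hH hinn ?_
  rw [Pool.Agent.H364.PR.Gam_eq_sq]
  exact h

end Pool.Agent.Results.MP_59b15d_al.OrderTwoPrym
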